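import Pool.Agent.Helper8.SPV.Stmts3

/-! # The function field of a desingularization of the model -/

set_option autoImplicit false

namespace Pool.Agent.Helper8.SPV

open IntermediateField (adjoin)
open AlgebraicGeometry CategoryTheory CategoryTheory.Limits
open Pool.Agent.Helper71 (PP PPtoSpec)

theorem GENX_stalk {X Y : Scheme.{0}} (j : Y ⟶ X) [IsOpenImmersion j] (y : Y) (x : X)
    (h : j y = x) : ∃ e : X.presheaf.stalk x ≅ Y.presheaf.stalk y,
      X.presheaf.germ ⊤ x trivial ≫ e.hom = j.appTop ≫ Y.presheaf.germ ⊤ y trivial := by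
  subst h
  refine ⟨asIso (j.stalkMap y), ?_⟩
  exact Scheme.Hom.germ_stalkMap j ⊤ y trivial

theorem GENX_aff (R : CommRingCat.{0}) [IsDomain R] (c : R) :
    algebraMap R (Spec R).functionField c =
      ((Scheme.ΓSpecIso R).inv ≫ (Spec R).presheaf.germ ⊤ (genericPoint (Spec R)) trivial).hom c :=
  rfl

/-- the function field of an integral scheme over `k` with an affine open subset -/
theorem GENX_ff {k : Type} [Field k] {X : Scheme.{0}} [IsIntegral X] (s : X ⟶ Spec (.of k))
    (A : CommRingCat.{0}) [IsDomain A] [Algebra k A] (j : Spec A ⟶ X) [IsOpenImmersion j]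
    (hj : j ≫ s = Spec.map (CommRingCat.ofHom (algebraMap k A))) (L : Type) [Field L]
    [Algebra A L] [IsFractionRing A L] [Algebra k L] [IsScalarTower k A L] :
    Nonempty (L ≃ₐ[k] FF s) := by
  obtain ⟨e, he⟩ := GENX_stalk j (genericPoint (Spec A)) (genericPoint X)
    (genericPoint_eq_of_isOpenImmersion j)
  have hk : ∀ c : k, e.hom.hom (kToFF s c) =
      algebraMap A (Spec A).functionField (algebraMap k A c) := by
    intro c
    have h1 : ((Scheme.ΓSpecIso (.of k)).inv ≫ s.appTop ≫
        X.presheaf.germ ⊤ (genericPoint X) trivial) ≫ e.hom =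
        CommRingCat.ofHom (algebraMap k A) ≫ (Scheme.ΓSpecIso A).inv ≫
          (Spec A).presheaf.germ ⊤ (genericPoint (Spec A)) trivial := by
      rw [Category.assoc, Category.assoc, he]
      have h2 := Scheme.ΓSpecIso_inv_naturality (R := .of k) (S := A)
        (CommRingCat.ofHom (algebraMap k A))
      have h6 : (Spec.map (CommRingCat.ofHom (algebraMap k A))).appTop =
        s.appTop ≫ j.appTop := by
        rw [← Scheme.Hom.comp_appTop, hj]
      have h7 : CommRingCat.ofHom (algebraMap k A) ≫ (Scheme.ΓSpecIso A).inv =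
          (Scheme.ΓSpecIso (.of k)).inv ≫ s.appTop ≫ j.appTop := h2.trans (by rw [h6])
      have h8 := congrArg (fun f => f ≫ (Spec A).presheaf.germ ⊤ (genericPoint (Spec A)) trivial) h7
      simp only [Category.assoc] at h8
      exact h8.symm
    have h3 := congrArg (fun f => f.hom c) h1
    rw [GENX_aff]
    exact h3
  let eL : L ≃ₐ[A] (Spec A).functionField :=
    IsLocalization.algEquiv (nonZeroDivisors A) L (Spec A).functionField
  let e2 : (Spec A).functionField ≃+* X.functionField := e.symm.commRingCatIsoToRingEquiv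
  have h5 : ∀ c : k, e2 (eL (algebraMap k L c)) = kToFF s c := by
    intro c
    have h4 : eL (algebraMap k L c) =
        algebraMap A (Spec A).functionField (algebraMap k A c) := by
      rw [IsScalarTower.algebraMap_apply k A L]
      exact eL.commutes _
    rw [h4, ← hk]
    exact ConcreteCategory.congr_hom e.hom_inv_id (kToFF s c)
  refine ⟨AlgEquiv.ofRingEquiv (f := (eL.toRingEquiv.trans e2 : L ≃+* FF s)) ?_⟩
  intro c
  exact h5 c

/-- the same if the affine open subset is an open subset of the base of a modification -/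
theorem GENX_desing {k : Type} [Field k] {X X' : Scheme.{0}} [IsIntegral X] [IsIntegral X']
    (s : X ⟶ Spec (.of k)) (π : X' ⟶ X) (U : X.Opens) (hU : (U : Set X).Nonempty)
    [IsIso (π ∣_ U)] (A : Type) [CommRing A] [IsDomain A] [Algebra k A]
    (c : Spec (.of A) ⟶ X) [IsOpenImmersion c]
    (hc : c ≫ s = Spec.map (CommRingCat.ofHom (algebraMap k A))) (L : Type) [Field L]
    [Algebra A L] [IsFractionRing A L] [Algebra k L] [IsScalarTower k A L] :
    Nonempty (L ≃ₐ[k] FF (π ≫ s)) := by
  -- a basic open subset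
  have h1 : ((c ⁻¹ᵁ U : (Spec (.of A)).Opens) : Set (Spec (.of A))).Nonempty := by
    have h2 : (Set.range c).Nonempty := ⟨c (genericPoint (Spec (.of A))), ⟨_, rfl⟩⟩
    obtain ⟨x, hx1, hx2⟩ := nonempty_preirreducible_inter c.isOpenEmbedding.isOpen_range U.isOpen
      h2 hU
    obtain ⟨y, rfl⟩ := hx1
    exact ⟨y, hx2⟩
  obtain ⟨y, hy⟩ := h1
  obtain ⟨V, ⟨_, ⟨f, rfl⟩, rfl⟩, hyf, hfU⟩ :=
    PrimeSpectrum.isBasis_basic_opens.exists_subset_of_mem_open hy
      (c ⁻¹ᵁ U : (Spec (.of A)).Opens).isOpen
  have hf : (f : A) ≠ 0 := by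
    intro h0
    have h3 : f ∉ (y : PrimeSpectrum A).asIdeal := hyf
    apply h3
    have h4 : f = 0 := h0
    rw [h4]
    exact zero_mem _
  -- the localization
  let B := Localization.Away (f : A)
  have hle : Submonoid.powers (f : A) ≤ nonZeroDivisors A :=
    powers_le_nonZeroDivisors_of_noZeroDivisors hf
  have : IsDomain B := IsLocalization.isDomain_localization hle
  let jf : Spec (.of B) ⟶ Spec (.of A) := Spec.map (CommRingCat.ofHom (algebraMap A B))
  have : IsOpenImmersion jf := inferInstance
  have hrange : Set.range jf = (PrimeSpectrum.basicOpen f : Set (PrimeSpectrum A)) :=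
    PrimeSpectrum.localization_away_comap_range B (f : A)
  -- lift to `U`
  have hlift : Set.range (jf ≫ c) ⊆ Set.range U.ι := by
    rintro _ ⟨z, rfl⟩
    rw [Scheme.Opens.range_ι]
    have h5 : jf z ∈ Set.range jf := ⟨z, rfl⟩
    rw [hrange] at h5
    have h6 := hfU h5
    exact h6
  let g : Spec (.of B) ⟶ U := IsOpenImmersion.lift U.ι (jf ≫ c) hlift
  have hg : g ≫ U.ι = jf ≫ c := IsOpenImmersion.lift_fac _ _ _
  have : IsOpenImmersion (g ≫ U.ι) := by
    rw [hg]; infer_instance
  have : IsOpenImmersion g := IsOpenImmersion.of_comp g U.ι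
  let j : Spec (.of B) ⟶ X' := g ≫ inv (π ∣_ U) ≫ (π ⁻¹ᵁ U).ι
  have hjπ : j ≫ π = jf ≫ c := by
    have h7 : inv (π ∣_ U) ≫ (π ⁻¹ᵁ U).ι ≫ π = U.ι := by
      rw [← morphismRestrict_ι, IsIso.inv_hom_id_assoc]
    simp only [j, Category.assoc]
    rw [h7, hg]
  have hjs : j ≫ (π ≫ s) = Spec.map (CommRingCat.ofHom (algebraMap k B)) := by
    rw [← Category.assoc, hjπ, Category.assoc, hc, ← Spec.map_comp]
    rfl
  -- the field
  have hunit : IsUnit (algebraMap A L f) := by
    rw [isUnit_iff_ne_zero]
    intro h0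
    exact hf (IsFractionRing.injective A L (by rw [h0, map_zero]))
  let _ : Algebra B L := (IsLocalization.Away.lift (S := B) (f : A) hunit).toAlgebra
  have : IsScalarTower A B L := IsScalarTower.of_algebraMap_eq fun a =>
    (IsLocalization.Away.lift_eq (S := B) (f : A) hunit a).symm
  have : IsFractionRing B L :=
    IsFractionRing.isFractionRing_of_isDomain_of_isLocalization (Submonoid.powers (f : A)) B L
  have : IsScalarTower k B L := IsScalarTower.of_algebraMap_eq fun a => by
    rw [IsScalarTower.algebraMap_apply k A L, IsScalarTower.algebraMap_apply k A B,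
      ← IsScalarTower.algebraMap_apply A B L]
  exact GENX_ff (π ≫ s) (.of B) j hjs L

theorem GENX_frac {k L : Type} [Field k] [Field L] [Algebra k L] (S : Set L)
    (hS : adjoin k S = ⊤) : IsFractionRing (Algebra.adjoin k S) L :=
  .of_field _ _ fun z =>
    have hz : z ∈ adjoin k S := by rw [hS]; trivial
    have ⟨x, hx, y, hy, he⟩ := IntermediateField.mem_adjoin_iff_div.mp hz
    ⟨⟨x, hx⟩, ⟨y, hy⟩, he⟩

theorem GENX_ES {k L M : Type} [Field k] [Field L] [Algebra k L] [Field M] [Algebra k M]
    (b : Fin 10 → k) (t w x y : L) (h : ES b t w x y) (e : L ≃ₐ[k] M) :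
    ES b (e t) (e w) (e x) (e y) := by
  refine ⟨⟨?_, ?_⟩, ?_, ?_⟩
  · rw [← map_pow, h.pt.e1]
    simp
  · rw [← map_pow, h.pt.e2]
    simp [Qf, map_sum]
  · have h1 := h.indep.map' (f := (e : L →ₐ[k] M)) e.injective
    convert h1 using 1
    ext i
    fin_cases i <;> rfl
  · have h1 := congrArg (IntermediateField.map (e : L →ₐ[k] M)) h.gen
    rw [IntermediateField.adjoin_map] at h1
    have h2 : (⊤ : IntermediateField k L).map (e : L →ₐ[k] M) = ⊤ := by
      rw [← AlgHom.fieldRange_eq_map]
      exact AlgHom.fieldRange_eq_top.mpr e.surjective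
    rw [h2] at h1
    rw [← h1]
    congr 1
    simp [Set.image_insert_eq]

theorem st_GENX : ST_GENX := by
  intro k L _ _ _ _ _ b t w x y X s c hES hM X' π h
  have := h.integral
  have := hM.proj.integral
  have := hM.isOpen 0
  obtain ⟨U, hU, hiso⟩ := h.birational
  have := hiso
  have hset : Set.range (co t w x y 0) = {t, w, x, y} := by
    ext z
    simp only [co, Set.mem_range, Fin.exists_fin_succ]
    simp [eq_comm]
  have hfr : IsFractionRing (ch k t w x y 0) L := GENX_frac _ (by rw [hset]; exact hES.gen)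
  obtain ⟨e⟩ := GENX_desing s π U hU (ch k t w x y 0) (c 0) (hM.isOver 0) L
  exact ⟨e t, e w, e x, e y, GENX_ES b t w x y hES e⟩

end Pool.Agent.Helper8.SPV
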